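import Pool.Agent.helper64.PC.SpecV
import Pool.Agent.helper83.PB.WAO

/-! MP_069684_lc, row pc:WAM: monotone bases of any fan-in which contain `x and (y or z)`. -/

set_option autoImplicit false

namespace Pool.Agent.PC

open Pool.Agent.PB

theorem WAM_const_mem (v : Bool) (r : ℕ) : gConst v ∈ upTo monG r :=
  ⟨fun _ _ _ h => h, Nat.zero_le r⟩

theorem WAM_const (v : Bool) (n r : ℕ) : Size (upTo monG r) (fC v n) 1 := by
  refine ⟨[fC v n], ?_, le_refl _, Or.inl (List.mem_singleton.2 rfl)⟩
  exact Prog.step [] (gConst v) (fun i => i.elim0) Prog.nil (WAM_const_mem v r) (fun i => i.elim0)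

theorem WAM (hRSM : RSM_stmt) (hCLP : CLP_stmt) (hCMP : CMP_stmt) (hDNF : DNF_stmt) : WAM_stmt := by
  classical
  intro G hGm hG
  refine ⟨2, ?_⟩
  intro n h hn hmono
  by_cases hconst : ∃ v, ∀ x, h x = v
  · obtain ⟨v, hv⟩ := hconst
    refine ⟨1, le_refl 1, ?_, fun x => x 0, hCLP.1 G 1 0, ?_, ?_⟩
    · omega
    · intro s _
      exact WAO_var std 0 _
    · intro r s _
      have h1 : h = fC v n := funext hv
      rw [h1]
      exact WAO_le (WAM_const v n r) (by omega)
  · push Not at hconst
    have hz : h (fun _ => false) = false := by
      by_contra hcon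
      have h1 : h (fun _ => false) = true := by
        rcases Bool.eq_false_or_eq_true (h fun _ => false) with h2 | h2
        · exact h2
        · exact absurd h2 hcon
      obtain ⟨x, hx⟩ := hconst true
      exact hx (hmono _ _ (fun i hi => absurd hi Bool.false_ne_true) h1)
    obtain ⟨x1, hx1⟩ := hconst false
    have hx1' : h x1 = true := by
      rcases Bool.eq_false_or_eq_true (h x1) with h2 | h2
      · exact h2
      · exact absurd h2 hx1
    let f : BF (n + 1) := fun z => z (Fin.last n) && h (fun i => z i.castSucc)
    refine ⟨n + 1, Nat.succ_le_succ (Nat.zero_le n), ?_, f, ?_, ?_, ?_⟩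
    · omega
    · have h1 := WAO_disj hCLP G hG n (Finset.univ.filter fun y => h y = true)
        ⟨x1, Finset.mem_filter.2 ⟨Finset.mem_univ _, hx1'⟩⟩ (by
          intro y hy
          by_contra hcon
          push Not at hcon
          have h2 : y = fun _ => false := by
            funext i
            rcases Bool.eq_false_or_eq_true (y i) with h3 | h3
            · exact absurd h3 (hcon i)
            · exact h3
          have h3 := (Finset.mem_filter.1 hy).2
          rw [h2, hz] at h3
          exact Bool.false_ne_true h3)
      have h2 : f = fun z => z (Fin.last n) && decide (∃ y ∈ (Finset.univ.filter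
          fun y => h y = true), ∀ i, y i = true → z i.castSucc = true) := by
        funext z
        show (z (Fin.last n) && h (fun i => z i.castSucc)) = _
        congr 1
        rw [Bool.eq_iff_iff]
        simp only [decide_eq_true_eq, Finset.mem_filter, Finset.mem_univ, true_and]
        constructor
        · intro h3
          exact ⟨_, h3, fun i hi => hi⟩
        · rintro ⟨y, hy, hyz⟩
          exact hmono y _ hyz hy
      rw [h2]
      exact h1
    · intro s hs
      have h1 := hCMP std n (n + 1) h (fun i => fun z => z i.castSucc) s (fun _ => 0) hs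
        (fun i => WAO_var std i.castSucc 0)
      have h2 := hCMP std 2 (n + 1) fAnd ![fun z => z (Fin.last n),
        fun z => h (fun i => z i.castSucc)] 1 ![0, s + ∑ i : Fin n, 0] WAO_and (by
          intro i
          fin_cases i
          · exact WAO_var std (Fin.last n) 0
          · exact h1)
      refine WAO_le h2 ?_
      rw [Fin.sum_univ_two]
      show 1 + (0 + (s + ∑ i : Fin n, 0)) ≤ 2 * (s + n)
      rw [Finset.sum_const_zero]
      omega
    · intro r s hs
      have hsub : upTo G r ⊆ upTo monG r := fun g hg => ⟨hGm g hg.1, hg.2⟩
      have h1 : Size (upTo monG r) f s := Size.mono_basis hsub hs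
      let φ : Fin (n + 1) → BF n := fun i => Fin.lastCases (fC true n) (fun j => fun x => x j) i
      have hφl : φ (Fin.last n) = fC true n := Fin.lastCases_last
      have hφc : ∀ j : Fin n, φ j.castSucc = fun x => x j := fun j => Fin.lastCases_castSucc _
      have h2 := hRSM (upTo monG r) (WAM_const_mem false r) (WAM_const_mem true r) (n + 1) n f s φ (by
        intro i
        refine Fin.lastCases ?_ (fun j => ?_) i
        · exact Or.inr ⟨true, hφl⟩
        · exact Or.inl ⟨j, hφc j⟩) h1
      have h3 : (fun x => f fun i => φ i x) = h := by
        funext x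
        show (φ (Fin.last n) x && h (fun i => φ i.castSucc x)) = h x
        rw [hφl]
        show (true && h (fun i => φ i.castSucc x)) = h x
        rw [Bool.true_and]
        congr 1
        funext i
        rw [hφc]
      rw [h3] at h2
      exact h2

end Pool.Agent.PC
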